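import Pool.Agent.H27.NT.Main
import Pool.Agent.H27.NT.Reg

/-!
# Numerical Grothendieck groups of even-dimensional hypersurface singularities of corank `≤ 3`

Let `S` be a complete regular local ring of dimension three (of any characteristic, also mixed)
and `g ≠ 0` in `S` such that `S/g` is a normal domain. For every `n` and every Noetherian local
ring `A` whose completion is `S⟦x₁, …, xₙ, y₁, …, yₙ⟧/(g + x₁y₁ + ⋯ + xₙyₙ)`, the class of `A` spans
the rational Grothendieck group of `A` modulo numerical equivalence.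
-/

open IsLocalRing TensorProduct

namespace Pool.Agent.Results.MP_48f5b7_ag.Suspension

open Pool.Agent.H27.NT

universe u

theorem result {S : Type u} [CommRing S] [IsRegularLocalRing S]
    [IsAdicComplete (maximalIdeal S) S] (hS : ringKrullDim S = 3) (g : S) (hg : g ≠ 0)
    [IsDomain (S ⧸ Ideal.span {g})] [IsIntegrallyClosed (S ⧸ Ideal.span {g})] (n : ℕ)
    (A : Type u) [CommRing A] [IsLocalRing A] [IsNoetherianRing A]
    (e : AdicCompletion (maximalIdeal A) A ≃+*
      MvPowerSeries (Fin n ⊕ Fin n) S ⧸ Ideal.span {hyp g n}) :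
    Submodule.span ℚ {(1 : ℚ) ⊗ₜ[ℤ] clsA A} = (⊤ : Submodule ℚ (ℚ ⊗[ℤ] Gbar A)) := by
  obtain ⟨hdom, s₁, s₂, s₃, hs, hm⟩ := regular_dim_three hS
  exact main s₁ s₂ s₃ hs hm g hg n A e

end Pool.Agent.Results.MP_48f5b7_ag.Suspension
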